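import Pool.Agent.H74.OLP.Targets

/-!
# MP_781dd6_co, row NB0: balls
-/

set_option autoImplicit false

open scoped Classical
open Finset Pool.Agent.H74.OLP

namespace Pool.Agent.H11.OLP

theorem pf_NB0 (h1 : T_EXT) : T_NB0 := by
  intro F T D w t f hSh ht
  obtain ⟨g, hg, -⟩ := h1 F T D Unit (fun _ => f) (fun _ => 0) t hSh.1 (fun a b Q hQ => by
    rw [add_zero]
    exact hSh.2 f Q (by omega))
  rw [Set.range_const] at hg
  exact null_of_pot T hg

end Pool.Agent.H11.OLP
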